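import Pool.Agent.X302.TR.Stm

set_option autoImplicit false

namespace Pool.Agent.X121.TR

open Pool.Agent.X302.TR Filter Topology

lemma bd {n : ℕ} {U : Filter ℕ} {l : ℕ → ℝ} {v : ℕ → V n} {w : V n} {K : ℝ}
    (hl : Tendsto l U atTop) (hv : Tendsto (fun k => (l k)⁻¹ • v k) U (𝓝 w)) (hK : ‖w‖ + 1 ≤ K) :
    ∀ᶠ k in U, ‖v k‖ ≤ K * l k := by
  have h1 := hv.norm.eventually (gt_mem_nhds (lt_add_one ‖w‖))
  filter_upwards [h1, hl.eventually_gt_atTop 0] with k hk hl
  rw [norm_smul, Real.norm_eq_abs, abs_of_pos (inv_pos.2 hl)] at hk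
  have h2 : (l k)⁻¹ * ‖v k‖ ≤ K := by linarith
  rw [inv_mul_le_iff₀ hl] at h2
  linarith [mul_comm K (l k)]

theorem t_SIZE : S_SIZE := by
  intro n U lam d y y0 m h1 h2 h3
  have ratio : ∀ j i, j ≤ i → i < m →
      Tendsto (fun k => lam i k / lam j k) U (𝓝 (if i = j then (1 : ℝ) else 0)) := by
    intro j i hji
    induction i, hji using Nat.le_induction with
    | base =>
      intro hj
      rw [if_pos rfl]
      refine (tendsto_const_nhds (x := (1 : ℝ))).congr' ?_
      filter_upwards [(h1 j hj).eventually_gt_atTop 0] with k hk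
      rw [div_self hk.ne']
    | succ i hi ih =>
      intro hi'
      rw [if_neg (by omega)]
      have h4 := (h2 i hi').mul (ih (by omega))
      rw [zero_mul] at h4
      refine h4.congr' ?_
      filter_upwards [(h1 i (by omega)).eventually_gt_atTop 0] with k hk
      rw [div_mul_div_cancel₀ hk.ne']
  have sums : ∀ j m', m' ≤ m → Tendsto (fun k => (lam j k)⁻¹ • ∑ i ∈ Finset.Ico j m', lam i k • d i) U
      (𝓝 (∑ i ∈ Finset.Ico j m', (if i = j then (1 : ℝ) else 0) • d i)) := by
    intro j m' hm'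
    simp_rw [Finset.smul_sum]
    refine tendsto_finsetSum _ fun i hi => ?_
    rw [Finset.mem_Ico] at hi
    have h5 := (ratio j i hi.1 (by omega)).smul_const (d i)
    refine h5.congr fun k => ?_
    rw [smul_smul, div_eq_inv_mul]
  have val : ∀ j m', j < m' → ∑ i ∈ Finset.Ico j m', (if i = j then (1 : ℝ) else 0) • d i = d j := by
    intro j m' hj
    rw [Finset.sum_eq_single j]
    · rw [if_pos rfl, one_smul]
    · intro i _ hi
      rw [if_neg hi, zero_smul]
    · intro h
      exact absurd (Finset.mem_Ico.2 ⟨le_rfl, hj⟩) h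
  have tl : ∀ j < m, Tendsto (fun k => (lam j k)⁻¹ • (∑ i ∈ Finset.Ico j m, lam i k • d i + y k)) U
      (𝓝 (d j)) := by
    intro j hj
    have h6 := sums j m le_rfl
    rw [val j m hj] at h6
    have h7 : Tendsto (fun k => (lam j k)⁻¹ • y k) U (𝓝 ((0 : ℝ) • y0)) :=
      (tendsto_inv_atTop_zero.comp (h1 j hj)).smul h3
    rw [zero_smul] at h7
    have h8 := h6.add h7
    rw [add_zero] at h8
    refine h8.congr fun k => ?_
    rw [smul_add]
  have hK : ∀ j < m, ‖d j‖ + 1 ≤ ∑ i ∈ Finset.range m, ‖d i‖ + 1 := by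
    intro j hj
    have := Finset.single_le_sum (f := fun i => ‖d i‖) (fun i _ => norm_nonneg _) (Finset.mem_range.2 hj)
    linarith
  refine ⟨∑ i ∈ Finset.range m, ‖d i‖ + 1, by positivity, fun j hj => ⟨?_, ?_, tl j hj⟩⟩
  · exact bd (h1 j hj) (tl j hj) (hK j hj)
  · intro m' hm'
    rcases lt_or_ge j m' with h | h
    · have h6 := sums j m' hm'
      rw [val j m' h] at h6
      exact bd (h1 j hj) h6 (hK j hj)
    · rw [Finset.Ico_eq_empty_of_le h]
      filter_upwards [(h1 j hj).eventually_gt_atTop 0] with k hk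
      simp only [Finset.sum_empty, norm_zero]
      positivity

end Pool.Agent.X121.TR
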